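import Pool.Agent.H30.LTF.Conv

/-!
The approximation of the `L2`-torsion by the torsion in the homology of finite covers fails:
Q1 of MP_98dedd_gt has a negative answer.
-/

open MeasureTheory Filter LTF
open scoped Topology

namespace Pool.Agent.Results.MP_98dedd_gt.DisproofQ1

/-- There are a closed aspherical smooth manifold `E / Γ` of odd dimension `2k+1` (orientable:
`H_{2k+1}(Γ; ℝ) ≠ 0`), a finite based free resolution `(S, deg, D)` of `ℤ` over the group ring with
spectral measures `μ j` of its Laplacians, and a residual chain `Γ = N 0 > N 1 > ...` of normal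
subgroups of finite index, such that all `L2`-Betti numbers `μ j {0}` are zero, `log` is integrable
(so that the `L2`-torsion `rho deg μ` is given by convergent integrals), and
`log |tors H_k(E / N i; ℤ)| / [Γ : N i]` does not converge to `(-1)^k` times the `L2`-torsion. -/
theorem result : ∃ (k : ℕ) (Γ E V : Type) (_ : Group Γ) (_ : TopologicalSpace E)
    (_ : MulAction Γ E) (_ : NormedAddCommGroup V) (_ : NormedSpace ℝ V) (_ : ChartedSpace V E)
    (S : Type) (_ : Fintype S) (_ : DecidableEq S) (deg : S → ℕ)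
    (D : Matrix S S (MonoidAlgebra ℤ Γ)) (μ : ℕ → Measure ℝ) (N : ℕ → Subgroup Γ)
    (_ : ∀ i, (N i).Normal),
    IsAspherical Γ E V (2 * k + 1) ∧ TopHom Γ (2 * k + 1) ∧ IsRes deg D ∧ IsResidual N ∧
      (∀ j, IsSpectral deg D j (μ j)) ∧ (∀ j, μ j {0} = 0) ∧
      (∀ j, IntegrableOn Real.log (Set.Ioi 0) (μ j)) ∧
      ¬ Tendsto (fun i => Real.log (torsOrd (N i) deg D k) / (N i).index) atTop
        (𝓝 ((-1) ^ k * rho deg μ)) :=
  LTF.main

end Pool.Agent.Results.MP_98dedd_gt.DisproofQ1
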