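import Pool.Agent.H66.LTS.Main

/-!
Q1 forces the vanishing of the growth of mod `p` homology of closed aspherical manifolds of odd
dimension.
-/

open MeasureTheory Filter LTF
open scoped Topology

namespace Pool.Agent.Results.MP_98dedd_gt.FpSingerOdd

/-- Let `Y = E / Γ` be a closed aspherical smooth manifold of dimension `2k+1` with a residual
chain, all `L²`-Betti numbers zero and nonzero `L²`-torsion (for instance a closed hyperbolic
3-manifold), let `X = F / Δ` be any closed aspherical smooth manifold of dimension `2m+1` with a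
residual chain whose covers have Betti numbers satisfying Poincare duality with real and with mod
`p` coefficients.  If Q1 holds for `Y`, `X × X × Y` and `X^(2m+3)` (for the closed aspherical
manifolds with these dimensions and fundamental groups), then the mod `p` Betti numbers of the
covers of `X` in every degree are `o(index)`. -/
theorem result (k m : ℕ) (Γ E V Δ F W : Type) [Group Γ] [TopologicalSpace E] [MulAction Γ E]
    [NormedAddCommGroup V] [NormedSpace ℝ V] [ChartedSpace V E] [Group Δ] [TopologicalSpace F]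
    [MulAction Δ F] [NormedAddCommGroup W] [NormedSpace ℝ W] [ChartedSpace W F]
    (hY : IsAspherical Γ E V (2 * k + 1)) (hX : IsAspherical Δ F W (2 * m + 1))
    (hQY : Q1On Γ k) (hQZ : Q1On (Δ × Δ × Γ) (2 * m + 1 + k))
    (hQP : Q1On (Fin (2 * m + 3) → Δ) (2 * m ^ 2 + 4 * m + 1))
    (S : Type) [Fintype S] [DecidableEq S] (deg : S → ℕ) (D : Matrix S S (MonoidAlgebra ℤ Γ))
    (μ : ℕ → Measure ℝ) (N : ℕ → Subgroup Γ) (hS : IsRes deg D) (hN : IsResidual N)
    (hμ : ∀ j, IsSpectral deg D j (μ j)) (hμ0 : ∀ j, μ j {0} = 0) (hρ : rho deg μ ≠ 0)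
    (T : Type) [Fintype T] [DecidableEq T] (deg' : T → ℕ) (D' : Matrix T T (MonoidAlgebra ℤ Δ))
    (N' : ℕ → Subgroup Δ) [∀ i, (N' i).Normal] (hT : IsRes deg' D') (hN' : IsResidual N')
    (hR : Dual ℝ N' deg' D' (2 * m + 1)) (p : ℕ) [Fact p.Prime]
    (hp : Dual (ZMod p) N' deg' D' (2 * m + 1)) (j : ℕ) :
    Tendsto (fun i => (betti (ZMod p) (N' i) deg' D' j : ℝ) / (N' i).index) atTop (𝓝 0) :=
  fpSingerOdd k m Γ E V Δ F W hY hX hQY hQZ hQP S deg D μ N hS hN hμ hμ0 hρ T deg' D' N' hT hN' hR
    p hp j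

end Pool.Agent.Results.MP_98dedd_gt.FpSingerOdd
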