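import Pool.Agent.H66.LTS.Main

/-!
Q1 for a power of an `L²`-acyclic closed aspherical manifold of odd dimension excludes linear
growth of its mod `p` homology.
-/

open MeasureTheory Filter LTF
open scoped Topology

namespace Pool.Agent.Results.MP_98dedd_gt.PowerFpGrowth

/-- Let `X = F / Δ` be a closed aspherical smooth manifold of dimension `2m+1` with a finite based
free resolution of `ℤ` over `ℤΔ`, assume that all `L²`-Betti numbers of `X` vanish, let `N` be a
residual chain and assume that the Betti numbers of the covers satisfy Poincare duality with real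
and with mod `p` coefficients.  If the mod `p` Betti numbers in some degree `j` are not `o(index)`
along the chain, then Q1 is false for `X^(2m+3)`, of dimension `(2m+1)(2m+3) = 2(2m^2+4m+1)+1` (for
a closed aspherical manifold with this dimension and fundamental group). -/
theorem result (m : ℕ) (Δ F W : Type) [Group Δ] [TopologicalSpace F] [MulAction Δ F]
    [NormedAddCommGroup W] [NormedSpace ℝ W] [ChartedSpace W F]
    (hX : IsAspherical Δ F W (2 * m + 1))
    (S : Type) [Fintype S] [DecidableEq S] (deg : S → ℕ) (D : Matrix S S (MonoidAlgebra ℤ Δ))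
    (μ : ℕ → Measure ℝ) (N : ℕ → Subgroup Δ) [∀ i, (N i).Normal] (hS : IsRes deg D)
    (hN : IsResidual N) (hμ : ∀ j, IsSpectral deg D j (μ j)) (hμ0 : ∀ j, μ j {0} = 0)
    (hR : Dual ℝ N deg D (2 * m + 1)) (p : ℕ) [Fact p.Prime]
    (hp : Dual (ZMod p) N deg D (2 * m + 1)) (j : ℕ)
    (hj : ¬ Tendsto (fun i => (betti (ZMod p) (N i) deg D j : ℝ) / (N i).index) atTop (𝓝 0)) :
    ¬ Q1On (Fin (2 * m + 3) → Δ) (2 * m ^ 2 + 4 * m + 1) :=
  powerFpGrowth m Δ F W hX S deg D μ N hS hN hμ hμ0 hR p hp j hj

end Pool.Agent.Results.MP_98dedd_gt.PowerFpGrowth
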