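import Pool.Agent.H66.LTS.Main

/-!
Q1 implies the Singer conjecture in odd dimensions.
-/

open MeasureTheory Filter LTF

namespace Pool.Agent.Results.MP_98dedd_gt.SingerOdd

/-- Let `Y = E / Γ` be a closed aspherical smooth manifold of dimension `2k+1` with a residual
chain, all `L²`-Betti numbers zero and nonzero `L²`-torsion (for instance a closed hyperbolic
3-manifold), let `X = F / Δ` be any closed aspherical smooth manifold of dimension `2m+1` with a
residual chain whose covers have real Betti numbers satisfying Poincare duality.  If Q1 holds for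
`Y` and `X × X × Y` (for the closed aspherical manifolds with these dimensions and fundamental
groups), then all `L²`-Betti numbers of `X` vanish: the spectral measures of the Laplacians have no
atom at zero. -/
theorem result (k m : ℕ) (Γ E V Δ F W : Type) [Group Γ] [TopologicalSpace E] [MulAction Γ E]
    [NormedAddCommGroup V] [NormedSpace ℝ V] [ChartedSpace V E] [Group Δ] [TopologicalSpace F]
    [MulAction Δ F] [NormedAddCommGroup W] [NormedSpace ℝ W] [ChartedSpace W F]
    (hY : IsAspherical Γ E V (2 * k + 1)) (hX : IsAspherical Δ F W (2 * m + 1))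
    (hQY : Q1On Γ k) (hQZ : Q1On (Δ × Δ × Γ) (2 * m + 1 + k))
    (S : Type) [Fintype S] [DecidableEq S] (deg : S → ℕ) (D : Matrix S S (MonoidAlgebra ℤ Γ))
    (μ : ℕ → Measure ℝ) (N : ℕ → Subgroup Γ) (hS : IsRes deg D) (hN : IsResidual N)
    (hμ : ∀ j, IsSpectral deg D j (μ j)) (hμ0 : ∀ j, μ j {0} = 0) (hρ : rho deg μ ≠ 0)
    (T : Type) [Fintype T] [DecidableEq T] (deg' : T → ℕ) (D' : Matrix T T (MonoidAlgebra ℤ Δ))
    (N' : ℕ → Subgroup Δ) [∀ i, (N' i).Normal] (hT : IsRes deg' D') (hN' : IsResidual N')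
    (hR : Dual ℝ N' deg' D' (2 * m + 1)) (l : ℕ) (ν : Measure ℝ) (hν : IsSpectral deg' D' l ν) :
    ν {0} = 0 :=
  singerOdd k m Γ E V Δ F W hY hX hQY hQZ S deg D μ N hS hN hμ hμ0 hρ T deg' D' N' hT hN' hR l ν hν

end Pool.Agent.Results.MP_98dedd_gt.SingerOdd
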